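import Pool.Agent.Y193.Fin

/-!
MP_c69980_ag, Q1: for affine varieties, boundedness modulo a closed subset (condition 5) implies the
finiteness of pointed maps (condition 3) modulo the same closed subset.
-/

set_option autoImplicit false

namespace Pool.Agent.Results.MP_c69980_ag.BoundedImpliesPointed

open AlgebraicGeometry CategoryTheory Pool.Agent.Y193

/-- Let `U = Spec A` be an affine variety over the complex numbers and let `Δ = V(J)` be a closed
subset of `U`. Condition 5 for `Δ` (`U` is bounded modulo `Δ`) implies condition 3 for `Δ` (there
are only finitely many pointed maps from every pointed variety to `U` and a point outside `Δ`). More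
precisely, condition 3 for `Δ` is equivalent to the boundedness of the families of the pointed maps
from smooth affine curves to `U` and points outside `Δ`. -/
theorem result {A : Type} [CommRing A] [IsDomain A] [Algebra ℂ A] [Algebra.FiniteType ℂ A]
    (J : Ideal A) :
    (BoundedModulo A J → FinitePointedMaps A J) ∧ (FinitePointedMaps A J ↔ PointedBounded A J) :=
  ⟨fun h => finite_of_pointed (pointed_of_bounded h), fun h => pointed_of_finite h,
    fun h => finite_of_pointed h⟩

end Pool.Agent.Results.MP_c69980_ag.BoundedImpliesPointed
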