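import Mathlib
import Pool.Agent.Y221.PB.Fin

/-!
MP_c69980_ag, Q1: the conditions 2, 3, 4, 5 for the projective varieties which are dominated by
varieties given by high powers, and the closed subsets `Δ` in these conditions for their finite
images.

Let `{F = 0}` in `ℙⁿ` be a projective set which is given by sums of at most `s` powers of linear
forms, or by forms with at most `s` monomials and divisible exponents, the exponents being at least
`N ≥ 4 n 10 ^ s (ρ r + 1) ^ 7`. We consider all projective varieties `X` dominated by its irreducible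
components, with degree at most `r`, and the images `X = {Φ = 0}` of `{F = 0}`, and of finite covers
`{Ψ = 0}` of its closed subsets, under finite morphisms with fibres of at most `r` points. No
assumption is made on the singularities and the branch loci, and the images may be reducible.

Conditions for a variety with generic point `x`, for some proper closed subset `Δ`: `PseudoBrody`
(condition 2), `PseudoGeomHyp` (condition 3, for curves), `PseudoBounded` (condition 5),
`CurveBound`, `CoverBound` (linear degree bounds). Conditions for `X = {Φ = 0}` and a given closed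
subset `Δ = {D = 0}` (`Pool/Agent/Y221/PB/ImOff.lean`, `Fin.lean`): `BrodyMod` (2), `PtdMod` (3, for
curves), `BddMod` (5), `LinMod` (linear degree bounds), `GenMod` (subvarieties), `PicardMod`
(punctured discs), `GmMod` (images of the multiplicative group).
-/

set_option autoImplicit false

namespace Pool.Agent.Results.MP_c69980_ag.FiniteImages

open Pool.Agent.W602.GT Pool.Agent.Y221.FQ Pool.Agent.Y221.PB
open Pool.Agent.Y221.BD (PseudoBrody)
open Pool.Agent.W602.RG (PseudoGeomHyp)
open Pool.Agent.W619.PQ (IsUniruled)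
open Pool.Agent.Y216 (CurveBound)

/-- Let `{F = 0}`, `s`, `N`, `r`, `ρ` be as above.

(1) If `V` is an irreducible component of positive dimension of `{F = 0}` and `V ⇢ X` is a dominant
rational map of degree at most `r` to a projective variety, then the conditions 2, 3 (for curves),
4, 5 are equivalent for `X`, and they are equivalent to linear degree bounds off a proper closed
subset, for curves and for their coverings of degree at most `ρ`, and to: `X` is not uniruled.

(2) If `G : {F = 0} → X = {Φ = 0}` is a surjective morphism with fibres of at most `r` points, then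
for every closed subset `Δ = {D = 0}` of `X` the following are equivalent: every nonconstant entire
curve in `X` has image in `Δ`; for every pointed curve and every point `q` of `X` outside `Δ` there
are finitely many morphisms to `X` with the value `q`; `X` is bounded modulo `Δ`; the same with a
linear bound in the genus; the same for coverings of degree at most `ρ` of curves; all closed
subvarieties of positive dimension not contained in `Δ` are of general type; holomorphic maps from
the punctured disc to `X` with image not contained in `Δ` extend; the images of the multiplicative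
group lie in `Δ`; `Δ` contains the image of the Zariski closure of the union of the images of the
multiplicative group in `{F = 0}`. The irreducible components of positive dimension of `X` satisfy
the conditions 2, 3 (for curves), 4, 5 if and only if they do not lie in this image.

(3) If `B : {Ψ = 0} → {F = 0}` is a morphism and `G : {Ψ = 0} → X = {Φ = 0}` is a surjective
morphism with fibres of at most `r` points, then all these properties hold for the closed subsets
`Δ` which contain the image under `G` of the inverse image under `B` of that closure. -/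
theorem result {n M : ℕ} {ι μ : Type} [Finite ι] {F : ι → MvPolynomial (Fin (n + 1)) ℂ}
    {Φ : μ → MvPolynomial (Fin (M + 1)) ℂ} {s N r ρ : ℕ} (hF : HighPowers s N F) (hn : 1 ≤ n)
    (hρ : 1 ≤ ρ) (hN : n * (4 * 10 ^ s * (ρ * r + 1) ^ 7) ≤ N) (hΦ : ∀ e, IsForm (Φ e)) :
    (∀ (w : ℕ) (K L : Type) [Field K] [Field L] [Algebra ℂ K] [Algebra ℂ L] [Algebra L K]
      [IsScalarTower ℂ L K] [FiniteDimensional L K] (y : Fin (n + 1) → K) (m : ℕ)
      (x : Fin (m + 1) → L), 1 ≤ w → SubVar F K w y → IsComponent F y →
      Module.finrank L K ≤ r → x ≠ 0 → coords ℂ x = ⊤ →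
      [PseudoBrody x, PseudoGeomHyp ℂ x, GeneralType ℂ L w, PseudoBounded ℂ x, CurveBound ℂ x,
        CoverBound ℂ ρ x, ¬ IsUniruled ℂ L w].TFAE) ∧
    (∀ G : Fin (M + 1) → MvPolynomial (Fin (n + 1)) ℂ, Mor F Φ G → Onto F Φ G → FibresLe F G r →
      (∀ (δ : Type) (D : δ → MvPolynomial (Fin (M + 1)) ℂ), (∀ e, IsForm (D e)) →
        [BrodyMod Φ D, PtdMod Φ D, BddMod Φ D, LinMod 1 Φ D, LinMod ρ Φ D, GenMod Φ D,
          PicardMod Φ D, GmMod Φ D, ∀ x ∈ SpGm F, ∀ e, val (im G x) (D e) = 0].TFAE) ∧
      ∀ (L : Type) [Field L] [Algebra ℂ L] (w : ℕ) (z : Fin (M + 1) → L), 1 ≤ w →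
        SubVar Φ L w z → IsComponent Φ z →
        [PseudoBrody z, PseudoGeomHyp ℂ z, GeneralType ℂ L w, PseudoBounded ℂ z,
          ¬ VarPts ℂ z ⊆ im G '' SpGm F].TFAE) ∧
    (∀ (m : ℕ) (κ : Type) (Ψ : κ → MvPolynomial (Fin (m + 1)) ℂ)
      (B : Fin (n + 1) → MvPolynomial (Fin (m + 1)) ℂ)
      (G : Fin (M + 1) → MvPolynomial (Fin (m + 1)) ℂ), (∀ e, IsForm (Ψ e)) → Mor Ψ F B →
      Mor Ψ Φ G → Onto Ψ Φ G → FibresLe Ψ G r →
      ∀ (δ : Type) (D : δ → MvPolynomial (Fin (M + 1)) ℂ), (∀ e, IsForm (D e)) →
        (∀ x ∈ Cone Ψ, im B x ∈ SpGm F → ∀ e, val (im G x) (D e) = 0) →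
        BrodyMod Φ D ∧ PicardMod Φ D ∧ PtdMod Φ D ∧ GenMod Φ D ∧ BddMod Φ D ∧ LinMod ρ Φ D) := by
  refine ⟨fun w K L _ _ _ _ _ _ _ y m x hw hy hc hr hx hgen => ?_,
    fun G hG hon hfib => ⟨fun δ D hD => ?_, fun L _ _ w z hw hz hc => ?_⟩,
    fun m κ Ψ B G hΨ hB hG hon hfib δ D hD h =>
      cx_cover hΦ hΨ hB hG hon hfib hF hn hρ hN hD h⟩
  · have h := dom_cx hF hw hρ hN hy hc hr hx hgen
    tfae_have 3 ↔ 1 := h.out 2 0
    tfae_have 3 ↔ 2 := h.out 2 1
    tfae_have 3 ↔ 4 := h.out 2 3
    tfae_have 3 ↔ 5 := h.out 2 4
    tfae_have 3 ↔ 6 := h.out 2 5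
    tfae_have 3 ↔ 7 := h.out 2 6
    tfae_finish
  · have h := cx_tfae hΦ hG hon hfib hF hn hρ hN hD
    tfae_have 9 ↔ 1 := h.out 8 0
    tfae_have 9 ↔ 7 := h.out 8 1
    tfae_have 9 ↔ 2 := h.out 8 2
    tfae_have 9 ↔ 6 := h.out 8 3
    tfae_have 9 ↔ 3 := h.out 8 4
    tfae_have 9 ↔ 4 := h.out 8 5
    tfae_have 9 ↔ 5 := h.out 8 6
    tfae_have 9 ↔ 8 := h.out 8 7
    tfae_finish
  · have h := comp_tfae hΦ hG hon hfib hF hn hρ hN hw hz hc
    tfae_have 3 ↔ 1 := h.out 2 0
    tfae_have 3 ↔ 2 := h.out 2 1
    tfae_have 3 ↔ 4 := h.out 2 3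
    tfae_have 3 ↔ 5 := h.out 2 7
    tfae_finish

end Pool.Agent.Results.MP_c69980_ag.FiniteImages
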