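import Pool.Agent.Y192.FA.CAll

/-!
MP_c69980_ag, Q1: the conditions 2, 3, 4, 5 are equivalent for the affine covers
`w j ^ e j = F j (t 0 ^ m, …, t n ^ m)`, `G (t 0 ^ m, …, t n ^ m) ≠ 0`, of arbitrary projective
varieties, `m` large.
-/

set_option autoImplicit false

namespace Pool.Agent.Results.MP_c69980_ag.KummerConditions

open Pool.Agent.W602.GT (LogGeneralType)
open Pool.Agent.Y192.KC Pool.Agent.Y192.FA
open Pool.Agent.Y193 (FinitePointedMaps BoundedModulo)

/-- Let `Z` be any irreducible projective variety in `P^n`, not in a coordinate hyperplane, with the
homogeneous prime ideal `I`, let `F 1, …, F r` and `G` be forms which do not vanish on `Z`, where `G`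
has positive degree, and let `e 1, …, e r` be positive numbers. There is a number `m0` with the
following property. Let `m ≥ m0` be divisible by the `e j`, and let `X` be any irreducible component,
of dimension `d > 0`, of the projective variety with the equations `f (t 0 ^ m, …, t n ^ m) = 0`,
`f ∈ I`, and `w j ^ e j = F j (t 0 ^ m, …, t n ^ m)` in the weighted projective space with the
homogeneous coordinates `t i` and `w j`; `L` is the function field of `X`, and `t`, `w` are the
coordinates of its generic point. Let `U` be the affine variety which is the part of `X` where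
`G (t 0 ^ m, …, t n ^ m)` does not vanish; its coordinate ring is `CoordX`. Then the conditions
2, 3, 4, 5 of the problem are equivalent for `U`:
(2) all entire curves in `U` lie in some proper closed subset,
(3) for some proper closed subset `D`, there are only finitely many morphisms `Y ⟶ U` which map `y`
to `x`, for all varieties `Y` with a point `y` and all points `x` of `U` outside of `D`,
(4) `U` is of log general type,
(5) `U` is bounded modulo some proper closed subset;
and they are equivalent to:
(6) there is no one-parameter group of diagonal matrices which acts nontrivially on `P^n` and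
preserves `Z` and the essential parts of the branch divisors `F j = 0` and of `G = 0` on `Z`. -/
theorem result {n r : ℕ} (X : ZCov n r) (hq : 0 < X.q) :
    ∃ m0 : ℕ, ∀ m, m0 ≤ m → (∀ j, X.e j ∣ m) →
      ∀ (L : Type) [Field L] [Algebra ℂ L] (t : Fin (n + 1) → L) (w : Fin r → L),
      ZField X m L t w → ∀ d : ℕ, 1 ≤ d → Algebra.trdeg ℂ L = d →
      [PseudoBrody X.toCov m t w,
        ∃ J : Ideal (CoordX X.toCov m t w), J ≠ ⊥ ∧ FinitePointedMaps (CoordX X.toCov m t w) J,
        LogGeneralType ℂ L d (OffG X.toCov m t),
        ∃ J : Ideal (CoordX X.toCov m t w), J ≠ ⊥ ∧ BoundedModulo (CoordX X.toCov m t w) J,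
        ¬ ZRed X].TFAE :=
  mainC_all X hq

end Pool.Agent.Results.MP_c69980_ag.KummerConditions
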