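import Pool.Agent.Y190.PH.Five

/-!
MP_c69980_ag, Q1: the conditions 2, 3, 4, 5 are equivalent for the closed subvarieties of the
complements of coordinate hyperplanes in the varieties of the vectors whose `m`-th powers, for
instance whose squares, are the values of a polynomial of low degree at given constants.

`X` is the smooth complete intersection of dimension `n` in `P^N` of the vectors `x` for which there
is a polynomial `H` of degree at most `n` with `x i ^ m = H (a i)` for all `i`, and `V` is a closed
subvariety of `X` minus the hyperplanes `x_j = 0`, `j` in `U`, where `U` is not empty. `V` is affine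
and given by its function field `K` and its generic point `y`; `H` is the polynomial of `y`. It is
assumed that `H` is not divisible by the `m`-th power of a polynomial of degree at least two; this
holds for all `V` if `n < 2 m`, and for `V` open in `X`.

`van y` is the family of the forms that vanish at `y`, `Pts U (van y)` is the cone over `V`, and
`SpH U (van y)` is the Zariski closure of the union of the images of the nonconstant entire curves
in `V`. `CoordRing U y` is the coordinate ring of `V`. `FinitePointedMaps A J` and `BoundedModulo A J`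
are the conditions 3 and 5 for `Spec A` and the closed subset `V(J)`.
-/

set_option autoImplicit false

namespace Pool.Agent.Results.MP_c69980_ag.PolynomialValueConditions

open FF Pool.Agent.W603.LV Pool.Agent.W603.PV Pool.Agent.W602.GT Pool.Agent.Y190.BV
  Pool.Agent.Y190.QP Pool.Agent.Y190.AH Pool.Agent.W603.BP Pool.Agent.W601.PH
  Pool.Agent.Y190.AN Pool.Agent.H159R3.GGLLog Pool.Agent.Y193 Pool.Agent.Y190.PH

theorem result {N n m w : ℕ} (hm : 2 ≤ m) (hN : 4 * n + (n + 1) ^ 2 < 2 * (N + 1))
    (a : Fin (N + 1) → ℂ) (ha : Function.Injective a) (U : Set (Fin (N + 1))) (hU : U.Nonempty)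
    (K : Type) [Field K] [Algebra ℂ K] (y : Fin (N + 1) → K) (H : Polynomial K)
    (hyU : ∀ j ∈ U, y j ≠ 0) (hgen : coords ℂ y = ⊤) (hdim : Algebra.trdeg ℂ K = w)
    (hdeg : H.natDegree ≤ n) (hy : ∀ i, y i ^ m = H.eval (algebraMap ℂ K (a i)))
    (hfac : ∀ q : Polynomial K, q ^ m ∣ H → q.natDegree ≤ 1) :
    [SpH U (van (k := ℂ) y) ≠ Pts U (van (k := ℂ) y),
      ∃ J : Ideal (CoordRing U y), J ≠ ⊥ ∧ FinitePointedMaps (CoordRing U y) J,
      LogGeneralType ℂ K w (OffU U y),
      ∃ J : Ideal (CoordRing U y), J ≠ ⊥ ∧ BoundedModulo (CoordRing U y) J,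
      3 ≤ U.ncard ∨ ¬ Ruled ℂ K].TFAE :=
  five hm hN ha hU hyU hgen hdim hdeg hy hfac

end Pool.Agent.Results.MP_c69980_ag.PolynomialValueConditions
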